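import Mathlib

set_option autoImplicit false

namespace Pool.Agent.W429.CircExt

/-- strict cyclic order axioms, total, invariant under right multiplication -/
structure IsCirc {G : Type*} [Group G] (C : G → G → G → Prop) : Prop where
  cyc : ∀ a b c, C a b c → C b c a
  asym : ∀ a b c, C a b c → ¬ C c b a
  trans : ∀ a b c d, C a b c → C a c d → C a b d
  total : ∀ a b c, a ≠ b → b ≠ c → a ≠ c → C a b c ∨ C c b a
  mul_right : ∀ a b c g, C a b c → C (a * g) (b * g) (c * g)

section
variable {G : Type*} [Group G] {C : G → G → G → Prop}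

/-- the linear order obtained by cutting at `e` -/
def Lt (C : G → G → G → Prop) (e x y : G) : Prop := (x = e ∧ y ≠ e) ∨ C e x y

theorem ne12 (h : IsCirc C) {a b c : G} (hC : C a b c) : a ≠ b := by
  rintro rfl
  have h1 := h.cyc _ _ _ hC
  exact h.asym _ _ _ h1 h1

theorem ne23 (h : IsCirc C) {a b c : G} (hC : C a b c) : b ≠ c := ne12 h (h.cyc _ _ _ hC)

theorem ne13 (h : IsCirc C) {a b c : G} (hC : C a b c) : a ≠ c := (ne12 h (h.cyc _ _ _ (h.cyc _ _ _ hC))).symm

theorem lt_irrefl (h : IsCirc C) (e x : G) : ¬ Lt C e x x := by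
  rintro (⟨h1, h2⟩ | h1)
  · exact h2 h1
  · exact ne23 h h1 rfl

theorem lt_min (h : IsCirc C) (e x : G) : ¬ Lt C e x e := by
  rintro (⟨h1, h2⟩ | h1)
  · exact h2 rfl
  · exact ne13 h h1 rfl

theorem lt_trans (h : IsCirc C) {e x y z : G} (h1 : Lt C e x y) (h2 : Lt C e y z) : Lt C e x z := by
  rcases h1 with ⟨h1, h1'⟩ | h1
  · rcases h2 with ⟨h2, h2'⟩ | h2
    · exact absurd h2 h1'
    · exact Or.inl ⟨h1, (ne13 h h2).symm⟩
  · rcases h2 with ⟨h2, h2'⟩ | h2
    · exact absurd h2.symm (ne13 h h1)
    · exact Or.inr (h.trans _ _ _ _ h1 h2)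

theorem lt_tri (h : IsCirc C) (e x y : G) : x = y ∨ Lt C e x y ∨ Lt C e y x := by
  by_cases hxy : x = y
  · exact Or.inl hxy
  · right
    by_cases hx : x = e
    · exact Or.inl (Or.inl ⟨hx, fun hy => hxy (hx.trans hy.symm)⟩)
    · by_cases hy : y = e
      · exact Or.inr (Or.inl ⟨hy, hx⟩)
      · rcases h.total e x y (fun h => hx h.symm) hxy (fun h => hy h.symm) with h1 | h1
        · exact Or.inl (Or.inr h1)
        · exact Or.inr (Or.inr (h.cyc _ _ _ (h.cyc _ _ _ h1)))

theorem lt_asymm (h : IsCirc C) {e x y : G} (h1 : Lt C e x y) : ¬ Lt C e y x :=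
  fun h2 => lt_irrefl h e x (lt_trans h h1 h2)

theorem lt_mul (h : IsCirc C) {e x y : G} (g : G) (h1 : Lt C e x y) :
    Lt C (e * g) (x * g) (y * g) := by
  rcases h1 with ⟨h1, h2⟩ | h1
  · exact Or.inl ⟨by rw [h1], fun h3 => h2 (mul_right_cancel h3)⟩
  · exact Or.inr (h.mul_right _ _ _ g h1)

/-- from the order cut at `e` back to the cyclic order -/
theorem C_of_lt (h : IsCirc C) {e a b c : G} (h1 : Lt C e a b) (h2 : Lt C e b c) : C a b c := by
  rcases h1 with ⟨h1, h1'⟩ | h1
  · rcases h2 with ⟨h2, h2'⟩ | h2
    · exact absurd h2 h1'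
    · rw [h1]; exact h2
  · rcases h2 with ⟨h2, h2'⟩ | h2
    · exact absurd h2.symm (ne13 h h1)
    · exact h.cyc _ _ _ (h.cyc _ _ _ (h.trans _ _ _ _ (h.cyc _ _ _ h2)
        (h.cyc _ _ _ (h.cyc _ _ _ h1))))

open Classical in
/-- the change-of-cut identity -/
theorem cut (h : IsCirc C) (e k x y : G) :
    (if Lt C k x y then (1 : ℤ) else 0) + (if Lt C e x k then 1 else 0) =
      (if Lt C e x y then 1 else 0) + (if Lt C e y k then 1 else 0) := by
  have hk : ∀ u v : G, Lt C e k u → Lt C e u v → Lt C k u v := fun u v h1 h2 =>
    Or.inr (C_of_lt h h1 h2)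
  have hk2 : ∀ u v : G, Lt C e u v → Lt C e v k → Lt C k u v := fun u v h1 h2 =>
    Or.inr (h.cyc _ _ _ (h.cyc _ _ _ (C_of_lt h h1 h2)))
  have hk3 : ∀ u v : G, Lt C e v k → Lt C e k u → Lt C k u v := fun u v h1 h2 =>
    Or.inr (h.cyc _ _ _ (C_of_lt h h1 h2))
  by_cases hxy : x = y
  · subst hxy
    simp [lt_irrefl h]
  · by_cases hxk : x = k
    · subst hxk
      have hyx : y ≠ x := fun h => hxy h.symm
      rcases lt_tri h e x y with h1 | h1 | h1
      · exact absurd h1 hxy
      · have h2 := lt_asymm h h1
        have h3 : Lt C x x y := Or.inl ⟨rfl, hyx⟩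
        simp [h1, h2, h3, lt_irrefl h]
      · have h2 := lt_asymm h h1
        have h3 : Lt C x x y := Or.inl ⟨rfl, hyx⟩
        simp [h1, h2, h3, lt_irrefl h]
    · by_cases hyk : y = k
      · subst hyk
        simp [lt_irrefl h, lt_min h]
      · rcases lt_tri h e x k with h1 | h1 | h1
        · exact absurd h1 hxk
        · rcases lt_tri h e y k with h2 | h2 | h2
          · exact absurd h2 hyk
          · rcases lt_tri h e x y with h3 | h3 | h3
            · exact absurd h3 hxy
            · have h4 := hk2 _ _ h3 h2
              simp [h1, h2, h3, h4]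
            · have h4 := lt_asymm h (hk2 _ _ h3 h1)
              have h5 := lt_asymm h h3
              simp [h1, h2, h4, h5]
          · have h3 : Lt C e x y := lt_trans h h1 h2
            have h4 := lt_asymm h (hk3 _ _ h1 h2)
            have h5 := lt_asymm h h2
            simp [h1, h3, h4, h5]
        · have h1' := lt_asymm h h1
          rcases lt_tri h e y k with h2 | h2 | h2
          · exact absurd h2 hyk
          · have h3 : Lt C e y x := lt_trans h h2 h1
            have h3' := lt_asymm h h3
            have h4 := hk3 _ _ h2 h1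
            simp [h1', h2, h3', h4]
          · have h2' := lt_asymm h h2
            rcases lt_tri h e x y with h3 | h3 | h3
            · exact absurd h3 hxy
            · have h4 := hk _ _ h1 h3
              simp [h1', h2', h3, h4]
            · have h4 := lt_asymm h (hk _ _ h2 h3)
              have h3' := lt_asymm h h3
              simp [h1', h2', h3', h4]

open Classical in
/-- the cocycle -/
noncomputable def eps (C : G → G → G → Prop) (h g : G) : ℤ := if Lt C 1 (h * g) g then 1 else 0

/-- the central extension of a circularly ordered group -/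
@[ext] structure Ext (C : G → G → G → Prop) where
  /-- the central coordinate -/
  n : ℤ
  /-- the group coordinate -/
  g : G

theorem eps_one_left (h : IsCirc C) (g : G) : eps C 1 g = 0 := by
  simp [eps, lt_irrefl h]

theorem eps_one_right (h : IsCirc C) (g : G) : eps C g 1 = 0 := by
  simp [eps, lt_min h]

theorem lt_mul_iff (h : IsCirc C) (e x y g : G) :
    Lt C (e * g) (x * g) (y * g) ↔ Lt C e x y := by
  constructor
  · intro h1
    have := lt_mul h g⁻¹ h1
    simpa [mul_assoc] using this
  · exact lt_mul h g

theorem eps_cocycle (h : IsCirc C) (a b c : G) :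
    eps C a b + eps C (a * b) c = eps C a (b * c) + eps C b c := by
  classical
  have h1 := cut h 1 c (a * b * c) (b * c)
  have h2 : Lt C c (a * b * c) (b * c) ↔ Lt C 1 (a * b) b := by
    have := lt_mul_iff h 1 (a * b) b c
    rwa [one_mul] at this
  simp only [h2] at h1
  unfold eps
  rw [← mul_assoc a b c]
  exact h1

/-- the group structure on the extension -/
@[instance_reducible] noncomputable def extGroup (h : IsCirc C) : Group (Ext C) :=
  letI : Mul (Ext C) := ⟨fun x y => ⟨x.n + y.n + eps C x.g y.g, x.g * y.g⟩⟩
  letI : One (Ext C) := ⟨⟨0, 1⟩⟩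
  letI : Inv (Ext C) := ⟨fun x => ⟨-x.n - eps C x.g⁻¹ x.g, x.g⁻¹⟩⟩
  Group.ofLeftAxioms
    (by
      intro x y z
      apply Ext.ext
      · show x.n + y.n + eps C x.g y.g + z.n + eps C (x.g * y.g) z.g =
          x.n + (y.n + z.n + eps C y.g z.g) + eps C x.g (y.g * z.g)
        have := eps_cocycle h x.g y.g z.g
        linarith
      · exact mul_assoc _ _ _)
    (by
      intro x
      apply Ext.ext
      · show 0 + x.n + eps C 1 x.g = x.n
        rw [eps_one_left h]; ring
      · exact one_mul _)
    (by
      intro x
      apply Ext.ext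
      · show -x.n - eps C x.g⁻¹ x.g + x.n + eps C x.g⁻¹ x.g = 0
        ring
      · exact inv_mul_cancel _)

end

/-- A circularly ordered group is the quotient of a right-ordered group by a central subgroup. -/
theorem exists_ext {G : Type} [Group G] {C : G → G → G → Prop} (h : IsCirc C) :
    ∃ (E : Type) (_ : Group E) (π : E →* G), Function.Surjective π ∧
      (∀ z ∈ π.ker, ∀ x : E, x * z = z * x) ∧
      ∃ r : E → E → Prop,
        (∀ x y : E, r x y ∨ r y x) ∧
        (∀ x y : E, r x y → r y x → x = y) ∧
        (∀ x y z : E, r x y → r y z → r x z) ∧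
        (∀ x y b : E, r x y → r (x * b) (y * b)) := by
  classical
  letI : Group (Ext C) := extGroup h
  have hmul : ∀ x y : Ext C, x * y = ⟨x.n + y.n + eps C x.g y.g, x.g * y.g⟩ := fun x y => rfl
  let π : Ext C →* G := { toFun := fun x => x.g, map_one' := rfl, map_mul' := fun x y => rfl }
  refine ⟨Ext C, inferInstance, π, ?_, ?_, ?_⟩
  · intro g
    exact ⟨⟨0, g⟩, rfl⟩
  · intro z hz x
    have hz1 : z.g = 1 := hz
    rw [hmul, hmul, hz1, eps_one_left h, eps_one_right h, mul_one, one_mul, add_comm x.n z.n]
  · refine ⟨fun x y => x.n < y.n ∨ (x.n = y.n ∧ (x.g = y.g ∨ Lt C 1 x.g y.g)), ?_, ?_, ?_, ?_⟩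
    · intro x y
      rcases lt_trichotomy x.n y.n with h1 | h1 | h1
      · exact Or.inl (Or.inl h1)
      · rcases lt_tri h 1 x.g y.g with h2 | h2 | h2
        · exact Or.inl (Or.inr ⟨h1, Or.inl h2⟩)
        · exact Or.inl (Or.inr ⟨h1, Or.inr h2⟩)
        · exact Or.inr (Or.inr ⟨h1.symm, Or.inr h2⟩)
      · exact Or.inr (Or.inl h1)
    · intro x y h1 h2
      rcases h1 with h1 | ⟨h1, h1'⟩
      · rcases h2 with h2 | ⟨h2, h2'⟩ <;> omega
      · rcases h2 with h2 | ⟨h2, h2'⟩
        · omega
        · rcases h1' with h1' | h1'
          · exact Ext.ext h1 h1'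
          · rcases h2' with h2' | h2'
            · exact Ext.ext h1 h2'.symm
            · exact absurd h2' (lt_asymm h h1')
    · intro x y z h1 h2
      rcases h1 with h1 | ⟨h1, h1'⟩
      · rcases h2 with h2 | ⟨h2, h2'⟩
        · exact Or.inl (by omega)
        · exact Or.inl (by omega)
      · rcases h2 with h2 | ⟨h2, h2'⟩
        · exact Or.inl (by omega)
        · refine Or.inr ⟨h1.trans h2, ?_⟩
          rcases h1' with h1' | h1'
          · rw [h1']; exact h2'
          · rcases h2' with h2' | h2'
            · rw [← h2']; exact Or.inr h1'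
            · exact Or.inr (lt_trans h h1' h2')
    · intro x y b h1
      rw [hmul, hmul]
      show x.n + b.n + eps C x.g b.g < y.n + b.n + eps C y.g b.g ∨ _
      have key := cut h 1 b.g (x.g * b.g) (y.g * b.g)
      have h2 : Lt C b.g (x.g * b.g) (y.g * b.g) ↔ Lt C 1 x.g y.g := by
        have := lt_mul_iff h 1 x.g y.g b.g
        rwa [one_mul] at this
      simp only [h2] at key
      rcases h1 with h1 | ⟨h1, h1'⟩
      · by_cases hx : Lt C 1 (x.g * b.g) b.g
        · by_cases hy : Lt C 1 (y.g * b.g) b.g
          · left
            simp only [eps, hx, hy, if_true]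
            omega
          · by_cases hn : x.n + 1 = y.n
            · right
              refine ⟨?_, ?_⟩
              · show x.n + b.n + eps C x.g b.g = y.n + b.n + eps C y.g b.g
                simp only [eps, hx, hy, if_true, if_false]
                omega
              · show x.g * b.g = y.g * b.g ∨ Lt C 1 (x.g * b.g) (y.g * b.g)
                rcases lt_tri h 1 (y.g * b.g) b.g with h3 | h3 | h3
                · right; rw [h3]; exact hx
                · exact absurd h3 hy
                · right; exact lt_trans h hx h3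
            · left
              simp only [eps, hx, hy, if_true, if_false]
              omega
        · left
          simp only [eps, hx, if_false]
          split_ifs <;> omega
      · rcases h1' with h1' | h1'
        · right
          refine ⟨?_, Or.inl ?_⟩
          · show x.n + b.n + eps C x.g b.g = y.n + b.n + eps C y.g b.g
            rw [h1, h1']
          · show x.g * b.g = y.g * b.g
            rw [h1']
        · simp only [h1', if_true] at key
          by_cases hx : Lt C 1 (x.g * b.g) b.g
          · by_cases hy : Lt C 1 (y.g * b.g) b.g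
            · by_cases hxy : Lt C 1 (x.g * b.g) (y.g * b.g)
              · right
                refine ⟨?_, Or.inr hxy⟩
                show x.n + b.n + eps C x.g b.g = y.n + b.n + eps C y.g b.g
                simp only [eps, hx, hy, if_true]
                omega
              · simp [hx, hy, hxy] at key
            · exfalso
              simp only [hx, hy, if_true, if_false] at key
              split_ifs at key <;> omega
          · by_cases hy : Lt C 1 (y.g * b.g) b.g
            · left
              simp only [eps, hx, hy, if_true, if_false]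
              omega
            · by_cases hxy : Lt C 1 (x.g * b.g) (y.g * b.g)
              · right
                refine ⟨?_, Or.inr hxy⟩
                show x.n + b.n + eps C x.g b.g = y.n + b.n + eps C y.g b.g
                simp only [eps, hx, hy, if_false]
                omega
              · simp [hx, hy, hxy] at key

end Pool.Agent.W429.CircExt
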